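import Pool.Agent.Helper52.SX.Goals
import Pool.Agent.Helper31.CS.TDL

set_option autoImplicit false

/-!
# Project SX (MP_34c247_lc), packet TDT: translation for tuples
-/

namespace Pool.Agent.Helper8.SX

open Pool.Agent.Helper81.CC Pool.Agent.Helper78.DT Pool.Agent.Helper51.ZP Pool.Agent.Helper65.CS
open Pool.Agent.Helper52.SX

open scoped Classical

theorem ixv_eq {n : ℕ} (x : Fin n → Bool) : ∀ l : List DList,
    ixv x l = ∑ j : Fin l.length, if DList.val x (l.get j) = true then 2 ^ (j : ℕ) else 0
  | [] => by simp [ixv]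
  | F :: l => by
    have ih := ixv_eq x l
    have h1 : (∑ j : Fin (F :: l).length,
        if DList.val x ((F :: l).get j) = true then 2 ^ (j : ℕ) else 0) =
        (if DList.val x F = true then 1 else 0) +
          ∑ j : Fin l.length, if DList.val x (l.get j) = true then 2 ^ ((j : ℕ) + 1) else 0 := by
      have h2 := Fin.sum_univ_succ (n := l.length)
        (fun j : Fin (l.length + 1) =>
          if DList.val x ((F :: l).get j) = true then 2 ^ (j : ℕ) else 0)
      exact h2
    rw [h1, ixv, ih, Finset.mul_sum]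
    congr 1
    refine Finset.sum_congr rfl fun j _ => ?_
    split_ifs
    · rw [pow_succ, mul_comm]
    · rfl

theorem tdt : TdtStmt := by
  intro n W l z hz
  have hT : ∀ j : Fin z.1.length, NF n W (z.1.get j) ∧ (z.1.get j).length ≤ l :=
    fun j => hz _ (List.get_mem z.1 j)
  refine ⟨fun j => ?_, fun x => ?_, ?_⟩
  · obtain ⟨h1, h2, h3, _, _⟩ := Pool.Agent.Helper31.CS.tdl_stmt n W _ (hT j).1
    exact ⟨h1, h2, h3.le.trans (hT j).2⟩
  · unfold tv hh
    rw [ixv_eq]
    congr 1
    refine Finset.sum_congr rfl fun j _ => ?_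
    obtain ⟨_, _, _, h4, _⟩ := Pool.Agent.Helper31.CS.tdl_stmt n W _ (hT j).1
    rw [h4 x]
  · rw [pr_eq_card, fract]
    have hc : (Fintype.card (Fin n → Bool) : ℝ) = 2 ^ n := by
      simp
    rw [hc]

end Pool.Agent.Helper8.SX
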